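import Pool.Agent.N133.TB.TwF

/-!
MP_be00df_ag, Q1: holomorphic tensors with values in a line bundle, on projective varieties with
trivial canonical class.

`NormalModel y` (`Pool/Agent/Y172/Defs.lean`): `y` is the generic point, in homogeneous coordinates,
of a normal projective variety `X` with function field `K`; `IsPrimeDivisor y P` says that the
valuation `P` of `K` is a prime divisor of `X`. Divisors are given by their multiplicities.

`GenBy y n Δ r η` (`Pool/Agent/N133/TB/TwA.lean`): `r (K_X + Δ)` is trivial, with generator `η`: the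
`r`-pluricanonical form `η` has, along each prime divisor `P` of `X`, exactly the order `- r Δ P`.
`IsTensorV y Δ L T`: the `K`-multilinear form `T` on the rational vector fields is a tensor
differential of `(X, Δ)` with values in `L`: if the vector fields `D j` are regular along the prime
divisor `P` and, for `j` not in `S`, tangent to `P`, then `T D` has order at least
`- (|S| Δ P + L P)` along `P`. For `X` smooth, `Δ = 0` and `L` a divisor these are the elements of
`H⁰ (X, (Ω¹) ^ ⊗ m ⊗ O (L))`. `FunSec y L f`: `f` is a section of `L`, `div f + L ≥ 0`.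

`WtBasisC c T f w μ` (`Pool/Agent/N133/TB/TwB.lean`): `f 0, …, f (n - 1)` are linearly independent,
the weights `w` have sum `0` and sum of squares `1`, and for all `i` and `J` with
`∑ s, w (J s) < c i * μ`, the coefficient `T i (f (J 0), f (J 1), …)` is zero. `lvl K f w b`
(`Pool/Agent/N133/TB/Can.lean`): the span of the `f j` with `w j ≤ b`.
-/

set_option autoImplicit false

namespace Pool.Agent.Results.MP_be00df_ag.LineBundleTensors

open FF Pool.Agent.Y172 Pool.Agent.Y174 Pool.Agent.N133.TB

/-- Let `X` be a normal projective variety of dimension `n ≥ 1`, `Δ` a `ℚ`-divisor with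
`r (K_X + Δ) ∼ 0`, `r ≥ 1` (e.g. `X` hyperkähler or Calabi-Yau and `Δ = 0`), `L` a `ℚ`-divisor on `X`
and `T i`, `i ∈ ι`, finitely many tensor differentials of `(X, Δ)` with values in `a i • L`,
`a i ≥ 0`, and `T i ≠ 0` for some `i` with `a i ≥ 1`. Then a multiple `e • L`, `e ≥ 1`, has a nonzero
section, or there is a basis `f` of the rational vector fields with weights `w` of sum `0` and sum of
squares `1` and a number `μ > 0` such that the coefficients of `T i` of weight less than `a i * μ`
vanish, for all `i`; `μ` is maximal, and the filtration of the tangent sheaf by the spans of the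
`f j` with `w j ≤ b`, `b ∈ ℝ`, is unique. In this case all `T i` with `a i ≥ 1` vanish on the span
of the `f j` with `w j ≤ 0`, which is neither `0` nor the tangent sheaf. -/
theorem result {K : Type} [Field K] [Algebra ℂ K] {n N : ℕ} {y : Fin (N + 1) → K}
    (hy : NormalModel y) (hn : Algebra.trdeg ℂ K = n) (hn1 : 1 ≤ n) {Δ L : Place ℂ K → ℚ} {r : ℕ}
    (hr : 1 ≤ r) {η : (Fin n → Derivation ℂ K K) → K} (hη : GenBy y n Δ r η) (hη0 : η ≠ 0)
    {ι : Type} [Finite ι] {m a : ι → ℕ}
    {T : (i : ι) → MultilinearMap K (fun _ : Fin (m i) => Derivation ℂ K K) K}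
    (hT : ∀ i, IsTensorV y Δ (a i • L) (T i)) (hT0 : ∃ i, 1 ≤ a i ∧ T i ≠ 0) :
    (∃ e : ℕ, 1 ≤ e ∧ ∃ f, f ≠ 0 ∧ FunSec y (e • L) f) ∨
    ∃ (f : Fin n → Derivation ℂ K K) (w : Fin n → ℝ) (μ : ℝ), 0 < μ ∧
      WtBasisC (fun i => (a i : ℝ)) T f w μ ∧
      ∀ (f' : Fin n → Derivation ℂ K K) (w' : Fin n → ℝ) (μ' : ℝ),
        WtBasisC (fun i => (a i : ℝ)) T f' w' μ' →
        μ' ≤ μ ∧ (μ' = μ → ∀ b, lvl K f' w' b = lvl K f w b) :=
  tw_can' hy hn hn1 hr hη hη0 hT hT0

end Pool.Agent.Results.MP_be00df_ag.LineBundleTensors
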